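import Mathlib

/-!
Edge-free subfamilies of convex families: `2 |S'| ≤ |C| + (n choose n/2)`.
-/

set_option autoImplicit false

namespace Pool.Agent.Q93.FA

open Finset

variable {α : Type} [Fintype α] [DecidableEq α]

/-- `C` contains with two sets all sets between them. -/
def Convex (C : Finset (Finset α)) : Prop :=
  ∀ A ∈ C, ∀ B ∈ C, ∀ X, A ⊆ X → X ⊆ B → X ∈ C

/-- no member of `S` is a member with one more element -/
def EdgeFree (S : Finset (Finset α)) : Prop :=
  ∀ A ∈ S, ∀ c, c ∉ A → insert c A ∉ S

lemma level (r : ℕ) (hr : Fintype.card α < 2 * r) :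
    ∃ f : Finset α → Finset α, (∀ B, #B = r → ∃ c ∈ B, f B = B.erase c) ∧
      ∀ B B', #B = r → #B' = r → f B = f B' → B = B' := by
  have hall : ∀ s : Finset {B : Finset α // #B = r},
      #s ≤ #(s.biUnion fun B => (B.1).image fun c => (B.1).erase c) := by
    intro s
    set 𝒜 : Finset (Finset α) := s.map ⟨Subtype.val, Subtype.val_injective⟩ with h𝒜
    have hsz : (𝒜 : Set (Finset α)).Sized r := by
      intro A hA
      rw [mem_coe, h𝒜, mem_map] at hA
      obtain ⟨B, -, rfl⟩ := hA
      exact B.2
    have h1 := local_lubell_yamamoto_meshalkin_inequality_mul hsz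
    have hcard : #𝒜 = #s := card_map _
    have hsub : 𝒜.shadow ⊆ s.biUnion fun B => (B.1).image fun c => (B.1).erase c := by
      intro X hX
      rw [mem_shadow_iff] at hX
      obtain ⟨A, hA, c, hc, rfl⟩ := hX
      rw [h𝒜, mem_map] at hA
      obtain ⟨B, hB, rfl⟩ := hA
      rw [mem_biUnion]
      exact ⟨B, hB, mem_image.2 ⟨c, hc, rfl⟩⟩
    have h2 : #𝒜 ≤ #(𝒜.shadow) := by
      have h3 : Fintype.card α - r + 1 ≤ r := by omega
      have h4 : #𝒜 * r ≤ #(𝒜.shadow) * r := h1.trans (Nat.mul_le_mul_left _ h3)
      exact Nat.le_of_mul_le_mul_right h4 (by omega)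
    rw [← hcard]
    exact h2.trans (card_le_card hsub)
  obtain ⟨f0, hinj, hf0⟩ := (Finset.all_card_le_biUnion_card_iff_exists_injective _).1 hall
  refine ⟨fun B => if h : #B = r then f0 ⟨B, h⟩ else B, ?_, ?_⟩
  · intro B hB
    have h1 := hf0 ⟨B, hB⟩
    rw [mem_image] at h1
    obtain ⟨c, hc, h2⟩ := h1
    exact ⟨c, hc, by simp only [hB, dite_true]; exact h2.symm⟩
  · intro B B' hB hB' h
    simp only [hB, hB', dite_true] at h
    exact congrArg Subtype.val (hinj h)

/-- matching of each large set with a subset that has one element less -/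
lemma exists_down : ∃ g : Finset α → Finset α,
    (∀ B, Fintype.card α < 2 * #B → ∃ c ∈ B, g B = B.erase c) ∧
    ∀ B B', Fintype.card α < 2 * #B → Fintype.card α < 2 * #B' → g B = g B' → B = B' := by
  classical
  choose! f hf hinj using (level (α := α))
  refine ⟨fun B => f (#B) B, fun B hB => hf _ hB B rfl, ?_⟩
  intro B B' hB hB' h
  obtain ⟨c, hc, e1⟩ := hf _ hB B rfl
  obtain ⟨c', hc', e2⟩ := hf _ hB' B' rfl
  have h1 : #(f (#B) B) = #B - 1 := by rw [e1, card_erase_of_mem hc]
  have h2 : #(f (#B') B') = #B' - 1 := by rw [e2, card_erase_of_mem hc']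
  have h3 : #B = #B' := by
    have h4 := congrArg card h
    simp only [h1, h2] at h4
    have := card_pos.2 ⟨c, hc⟩
    have := card_pos.2 ⟨c', hc'⟩
    omega
  refine hinj _ hB B B' rfl h3.symm ?_
  have h5 : f (#B) B = f (#B') B' := h
  rw [h5, h3]

/-- matching of each small set with a superset that has one element more -/
lemma exists_up : ∃ h : Finset α → Finset α,
    (∀ A, 2 * #A < Fintype.card α → ∃ c, c ∉ A ∧ h A = insert c A) ∧
    ∀ A A', 2 * #A < Fintype.card α → 2 * #A' < Fintype.card α → h A = h A' → A = A' := by
  obtain ⟨g, hg, hinj⟩ := exists_down (α := α)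
  have hc : ∀ A : Finset α, 2 * #A < Fintype.card α → Fintype.card α < 2 * #(Aᶜ) := by
    intro A hA
    rw [card_compl]
    omega
  refine ⟨fun A => (g Aᶜ)ᶜ, ?_, ?_⟩
  · intro A hA
    obtain ⟨c, hcA, e⟩ := hg _ (hc A hA)
    refine ⟨c, by simpa using hcA, ?_⟩
    change (g Aᶜ)ᶜ = insert c A
    rw [e]
    ext x
    simp only [mem_compl, mem_erase, mem_insert]
    tauto
  · intro A A' hA hA' h
    have := hinj _ _ (hc A hA) (hc A' hA') (compl_injective h)
    exact compl_injective this

/-- **The bound for edge-free subfamilies of a convex family.** -/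
theorem edgeFree_bound (C S : Finset (Finset α)) (hC : Convex C) (hSC : S ⊆ C)
    (hS : EdgeFree S) :
    2 * #S ≤ #C + (Fintype.card α).choose (Fintype.card α / 2) := by
  classical
  obtain ⟨g, hg, ginj⟩ := exists_down (α := α)
  obtain ⟨h, hh, hinj⟩ := exists_up (α := α)
  set n := Fintype.card α with hn
  set m := n / 2 with hm
  -- the two maps, restricted to sizes above and below `m`
  have hgc : ∀ B, m < #B → #(g B) + 1 = #B ∧ g B ⊆ B := by
    intro B hB
    obtain ⟨c, hc, e⟩ := hg B (by omega)
    rw [e, card_erase_of_mem hc]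
    exact ⟨by have := card_pos.2 ⟨c, hc⟩; omega, erase_subset _ _⟩
  have hhc : ∀ A, #A < m → #(h A) = #A + 1 ∧ A ⊆ h A := by
    intro A hA
    obtain ⟨c, hc, e⟩ := hh A (by omega)
    rw [e, card_insert_of_notMem hc]
    exact ⟨rfl, subset_insert _ _⟩
  -- iterates of `h`
  have hit : ∀ k A, #A + k ≤ m → #(h^[k] A) = #A + k ∧ A ⊆ h^[k] A := by
    intro k
    induction k with
    | zero => intro A _; simp
    | succ k ih =>
      intro A hA
      obtain ⟨h1, h2⟩ := hhc A (by omega)
      obtain ⟨h3, h4⟩ := ih (h A) (by omega)
      rw [Function.iterate_succ_apply]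
      exact ⟨by omega, h2.trans h4⟩
  have hitinj : ∀ k A A', #A + k ≤ m → #A' + k ≤ m → h^[k] A = h^[k] A' → A = A' := by
    intro k
    induction k with
    | zero => intro A A' _ _ e; simpa using e
    | succ k ih =>
      intro A A' hA hA' e
      rw [Function.iterate_succ_apply, Function.iterate_succ_apply] at e
      have h1 := hhc A (by omega)
      have h2 := hhc A' (by omega)
      exact hinj _ _ (by omega) (by omega) (ih _ _ (by omega) (by omega) e)
  -- iterates of `g`
  have git : ∀ k B, m + k ≤ #B → #(g^[k] B) + k = #B ∧ g^[k] B ⊆ B := by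
    intro k
    induction k with
    | zero => intro B _; simp
    | succ k ih =>
      intro B hB
      obtain ⟨h1, h2⟩ := hgc B (by omega)
      obtain ⟨h3, h4⟩ := ih (g B) (by omega)
      rw [Function.iterate_succ_apply]
      exact ⟨by omega, h4.trans h2⟩
  have gitinj : ∀ k B B', m + k ≤ #B → m + k ≤ #B' → g^[k] B = g^[k] B' → B = B' := by
    intro k
    induction k with
    | zero => intro A A' _ _ e; simpa using e
    | succ k ih =>
      intro A A' hA hA' e
      rw [Function.iterate_succ_apply, Function.iterate_succ_apply] at e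
      have h1 := hgc A (by omega)
      have h2 := hgc A' (by omega)
      exact ginj _ _ (by omega) (by omega) (ih _ _ (by omega) (by omega) e)
  -- the label of a chain: its member of size `m`
  let lam : Finset α → Finset α := fun B => if #B ≤ m then h^[m - #B] B else g^[#B - m] B
  have lamcard : ∀ B, #(lam B) = m := by
    intro B
    by_cases hB : #B ≤ m
    · have := (hit (m - #B) B (by omega)).1
      simp only [lam, if_pos hB]
      omega
    · have := (git (#B - m) B (by omega)).1
      simp only [lam, if_neg hB]
      omega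
  -- the maxima of the intersections of the chains with `C`
  let isMax : Finset α → Prop := fun B => (#B < m → h B ∉ C) ∧ ∀ B1, m < #B1 → g B1 = B → B1 ∉ C
  -- two members of a chain: the lower one is not maximal
  have low : ∀ B ∈ C, ∀ B' ∈ C, lam B = lam B' → #B < #B' → ¬ isMax B := by
    intro B hB B' hB' e hlt hmax
    by_cases h1 : #B < m
    · -- the next member is `h B`
      apply hmax.1 h1
      refine hC B hB B' hB' _ (hhc B h1).2 ?_
      have h1' : #B ≤ m := h1.le
      by_cases h2 : #B' ≤ m
      · have e' : h^[m - #B] B = h^[m - #B'] B' := by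
          simpa only [lam, if_pos h1', if_pos h2] using e
        have h3 : h^[#B' - #B] B = B' := by
          refine hitinj (m - #B') _ _ ?_ (by omega) ?_
          · have := (hit (#B' - #B) B (by omega)).1
            omega
          · rw [← Function.iterate_add_apply, ← e']
            congr 2
            omega
        have h4 : h^[#B' - #B - 1] (h B) = B' := by
          rw [← Function.iterate_succ_apply, show (#B' - #B - 1).succ = #B' - #B from by omega]
          exact h3
        have h5 := (hit (#B' - #B - 1) (h B) (by have := (hhc B h1).1; omega)).2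
        rwa [h4] at h5
      · have e' : h^[m - #B] B = g^[#B' - m] B' := by
          simpa only [lam, if_pos h1', if_neg h2] using e
        have h4 : h^[m - #B - 1] (h B) = h^[m - #B] B := by
          rw [← Function.iterate_succ_apply]
          congr 2
          omega
        have h5 := (hit (m - #B - 1) (h B) (by have := (hhc B h1).1; omega)).2
        rw [h4, e'] at h5
        exact h5.trans (git (#B' - m) B' (by omega)).2
    · -- the next member is a set `B1` with `g B1 = B`
      have h2 : ¬ #B' ≤ m := by omega
      have e' : g^[#B - m] B = g^[#B' - m] B' := by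
        by_cases h3 : #B ≤ m
        · have h4 : #B = m := by omega
          have h5 : lam B = B := by
            simp only [lam, if_pos h3, h4, Nat.sub_self]
            rfl
          have h6 : lam B' = g^[#B' - m] B' := by simp only [lam, if_neg h2]
          rw [h4, Nat.sub_self, ← h6, ← e, h5]
          rfl
        · simpa only [lam, if_neg h3, if_neg h2] using e
      have h3 : g^[#B' - #B] B' = B := by
        refine gitinj (#B - m) _ _ ?_ (by omega) ?_
        · have := (git (#B' - #B) B' (by omega)).1
          omega
        · rw [← Function.iterate_add_apply, e']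
          congr 2
          omega
      have h4 : g (g^[#B' - #B - 1] B') = B := by
        rw [← Function.iterate_succ_apply' g, show (#B' - #B - 1).succ = #B' - #B from by omega]
        exact h3
      obtain ⟨h5, h6⟩ := git (#B' - #B - 1) B' (by omega)
      refine hmax.2 (g^[#B' - #B - 1] B') (by omega) h4 (hC B hB B' hB' _ ?_ h6)
      have h7 := (hgc (g^[#B' - #B - 1] B') (by omega)).2
      rwa [h4] at h7
  -- at most `n choose m` members are maximal
  have hM : #(C.filter isMax) ≤ n.choose m := by
    have h1 : #(C.filter isMax) ≤ #((univ : Finset α).powersetCard m) := by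
      refine card_le_card_of_injOn lam ?_ ?_
      · intro B _
        rw [mem_coe, mem_powersetCard]
        exact ⟨subset_univ _, lamcard B⟩
      · intro B hB B' hB' e
        rw [mem_coe, mem_filter] at hB hB'
        rcases lt_trichotomy (#B) (#B') with hlt | heq | hgt
        · exact absurd hB.2 (low B hB.1 B' hB'.1 e hlt)
        · by_cases h2 : #B ≤ m
          · have h3 : #B' ≤ m := by omega
            have e' : h^[m - #B] B = h^[m - #B'] B' := by
              simpa only [lam, if_pos h2, if_pos h3] using e
            rw [← heq] at e'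
            exact hitinj _ _ _ (by omega) (by omega) e'
          · have h3 : ¬ #B' ≤ m := by omega
            have e' : g^[#B - m] B = g^[#B' - m] B' := by
              simpa only [lam, if_neg h2, if_neg h3] using e
            rw [← heq] at e'
            exact gitinj _ _ _ (by omega) (by omega) e'
        · exact absurd hB'.2 (low B' hB'.1 B hB.1 e.symm hgt)
    rwa [card_powersetCard, card_univ, ← hn] at h1
  -- the others are sent to `C \ S`
  have hnext : ∀ B ∈ S.filter (fun B => ¬ isMax B), ∃ X ∈ C \ S,
      (#B < m ∧ X = h B) ∨ (m < #X ∧ g X = B) := by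
    intro B hB
    rw [mem_filter] at hB
    obtain ⟨hBS, hnm⟩ := hB
    simp only [isMax, not_and_or, not_forall, not_not] at hnm
    rcases hnm with ⟨h1, h2⟩ | ⟨B1, h1, h2, h3⟩
    · refine ⟨h B, ?_, Or.inl ⟨h1, rfl⟩⟩
      rw [mem_sdiff]
      refine ⟨h2, ?_⟩
      obtain ⟨c, hc, e⟩ := hh B (by omega)
      rw [e]
      exact hS B hBS c hc
    · refine ⟨B1, ?_, Or.inr ⟨h1, h2⟩⟩
      rw [mem_sdiff]
      refine ⟨h3, fun h4 => ?_⟩
      obtain ⟨c, hc, e⟩ := hg B1 (by omega)
      have h5 := hS B hBS c (by rw [← h2, e]; simp)
      rw [← h2, e, insert_erase hc] at h5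
      exact h5 h4
  choose! X hX hX2 using hnext
  have h3 : #(S.filter fun B => ¬ isMax B) ≤ #(C \ S) := by
    refine card_le_card_of_injOn X (fun B hB => hX B hB) ?_
    intro B hB B' hB' e
    rcases hX2 B hB with ⟨h1, h2⟩ | ⟨h1, h2⟩ <;> rcases hX2 B' hB' with ⟨h1', h2'⟩ | ⟨h1', h2'⟩
    · exact hinj _ _ (by omega) (by omega) (by rw [← h2, ← h2', e])
    · exfalso
      have h5 := (hhc B h1).1
      rw [← h2, e] at h5
      omega
    · exfalso
      have h5 := (hhc B' h1').1
      rw [← h2', ← e] at h5
      omega
    · rw [← h2, ← h2', e]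
  have h4 : #(S.filter isMax) + #(S.filter fun B => ¬ isMax B) = #S :=
    card_filter_add_card_filter_not _
  have h5 : #(S.filter isMax) ≤ #(C.filter isMax) := card_le_card (filter_subset_filter _ hSC)
  have h6 : #(C \ S) = #C - #S := card_sdiff_of_subset hSC
  have h7 : #S ≤ #C := card_le_card hSC
  omega

end Pool.Agent.Q93.FA
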