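import Pool.Agent.Q93.FA.Chains

/-!
Families with a partition into few convex families.
-/

set_option autoImplicit false

namespace Pool.Agent.Q93.FA

open Finset

variable {α : Type} [Fintype α] [DecidableEq α]

/-- `S` has a partition into `T` convex families. -/
def Pieces (T : ℕ) (S : Finset (Finset α)) : Prop :=
  ∃ l : Finset α → Fin T, ∀ t, Convex (S.filter fun B => l B = t)

theorem pieces_bound (T : ℕ) (F S : Finset (Finset α)) (hF : Pieces T F) (hSF : S ⊆ F)
    (hS : EdgeFree S) :
    2 * #S ≤ #F + T * (Fintype.card α).choose (Fintype.card α / 2) := by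
  classical
  obtain ⟨l, hl⟩ := hF
  have h1 : ∀ X : Finset (Finset α), #X = ∑ t, #(X.filter fun B => l B = t) := fun X =>
    card_eq_sum_card_fiberwise (fun B _ => mem_coe.2 (mem_univ _))
  rw [h1 S, h1 F, mul_sum]
  calc ∑ t, 2 * #(S.filter fun B => l B = t)
      ≤ ∑ t, (#(F.filter fun B => l B = t) + (Fintype.card α).choose (Fintype.card α / 2)) := by
        refine sum_le_sum fun t _ => edgeFree_bound _ _ (hl t) (filter_subset_filter _ hSF) ?_
        intro A hA c hc h
        rw [mem_filter] at hA h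
        exact hS A hA.1 c hc h.1
    _ = _ := by
        rw [sum_add_distrib, sum_const, card_univ, Fintype.card_fin, smul_eq_mul]

/-- There is a chain ending in `B` along which membership in `S` has at least `j` runs. -/
inductive Runs (S : Finset (Finset α)) : ℕ → Finset α → Prop
  | one {B : Finset α} (h : B ∈ S) : Runs S 1 B
  | step {j : ℕ} {A C B : Finset α} (h : Runs S j A) (h1 : A ⊆ C) (h2 : C ⊆ B) (h3 : C ∉ S)
      (h4 : B ∈ S) : Runs S (j + 1) B

omit [Fintype α] [DecidableEq α] in
lemma Runs.mem {S : Finset (Finset α)} {j : ℕ} {B : Finset α} (h : Runs S j B) : B ∈ S := by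
  cases h with
  | one h => exact h
  | step _ _ _ _ h4 => exact h4

omit [Fintype α] [DecidableEq α] in
lemma Runs.mono {S : Finset (Finset α)} {j : ℕ} {A B : Finset α} (h : Runs S j A) (hAB : A ⊆ B)
    (hB : B ∈ S) : Runs S j B := by
  cases h with
  | one _ => exact Runs.one hB
  | step h h1 h2 h3 _ => exact Runs.step h h1 (h2.trans hAB) h3 hB

omit [Fintype α] in
/-- **few runs along every chain** -/
theorem pieces_of_runs (T : ℕ) (hT : 1 ≤ T) (S : Finset (Finset α))
    (h : ∀ B, ¬ Runs S (T + 1) B) : Pieces T S := by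
  classical
  let r : Finset α → ℕ := fun B => Nat.findGreatest (fun j => Runs S j B) T
  have hr1 : ∀ B ∈ S, 1 ≤ r B := fun B hB => Nat.le_findGreatest hT (Runs.one hB)
  have hrs : ∀ B ∈ S, Runs S (r B) B := fun B hB =>
    Nat.findGreatest_spec (P := fun j => Runs S j B) hT (Runs.one hB)
  have hrT : ∀ B, r B ≤ T := fun B => Nat.findGreatest_le T
  refine ⟨fun B => ⟨r B - 1, by have := hrT B; omega⟩, ?_⟩
  intro t A hA B hB X hAX hXB
  rw [mem_filter, Fin.ext_iff] at hA hB
  have hA1 := hr1 A hA.1
  have hB1 := hr1 B hB.1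
  have hAB : r A = r B := by
    have h1 : r A - 1 = (t : ℕ) := hA.2
    have h2 : r B - 1 = (t : ℕ) := hB.2
    omega
  by_cases hX : X ∈ S
  · have h1 : r A ≤ r X := Nat.le_findGreatest (hrT A) ((hrs A hA.1).mono hAX hX)
    have h2 : r X ≤ r B := Nat.le_findGreatest (hrT X) ((hrs X hX).mono hXB hB.1)
    rw [mem_filter, Fin.ext_iff]
    refine ⟨hX, ?_⟩
    have h3 : r A - 1 = (t : ℕ) := hA.2
    change r X - 1 = (t : ℕ)
    omega
  · exfalso
    have h1 : Runs S (r A + 1) B := Runs.step (hrs A hA.1) hAX hXB hX hB.1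
    rcases Nat.lt_or_ge (r A) T with h2 | h2
    · have h3 : r A + 1 ≤ r B := Nat.le_findGreatest h2 h1
      omega
    · have h3 : r A = T := le_antisymm (hrT A) h2
      rw [h3] at h1
      exact h B h1

/-- `f` is decided by a decision tree of depth `r` in which every query asks whether the input
belongs to some monotone family (an up-set), and every leaf is a monotone family. -/
inductive Tree : ℕ → (Finset α → Prop) → Prop
  | leaf {f : Finset α → Prop} (h : ∀ A B, A ⊆ B → f A → f B) : Tree 0 f
  | query {r : ℕ} {q f0 f1 f : Finset α → Prop} (hq : ∀ A B, A ⊆ B → q A → q B)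
      (h0 : Tree r f0) (h1 : Tree r f1) (h : ∀ A, f A ↔ (q A ∧ f1 A) ∨ (¬ q A ∧ f0 A)) :
      Tree (r + 1) f

omit [DecidableEq α] in
theorem pieces_of_tree {r : ℕ} {f : Finset α → Prop} (h : Tree r f) :
    ∀ S : Finset (Finset α), (∀ A, A ∈ S ↔ f A) → Pieces (2 ^ r) S := by
  classical
  induction h with
  | leaf h =>
    intro S hS
    refine ⟨fun _ => ⟨0, by norm_num⟩, ?_⟩
    intro t A hA B _ X hAX _
    rw [mem_filter] at hA ⊢
    refine ⟨(hS X).2 (h A X hAX ((hS A).1 hA.1)), ?_⟩
    exact hA.2
  | @query r q f0 f1 f hq h0 h1 h ih0 ih1 =>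
    intro S hS
    obtain ⟨l0, hl0⟩ := ih0 (univ.filter f0) (by simp)
    obtain ⟨l1, hl1⟩ := ih1 (univ.filter f1) (by simp)
    have e2 : 2 ^ (r + 1) = 2 ^ r + 2 ^ r := by ring
    let l : Finset α → Fin (2 ^ (r + 1)) := fun A =>
      if q A then ⟨2 ^ r + l1 A, by have := (l1 A).2; omega⟩ else ⟨l0 A, by have := (l0 A).2; omega⟩
    refine ⟨l, ?_⟩
    intro t A hA B hB X hAX hXB
    rw [mem_filter, hS, h] at hA hB ⊢
    obtain ⟨hA1, hA2⟩ := hA
    obtain ⟨hB1, hB2⟩ := hB
    by_cases hqt : 2 ^ r ≤ (t : ℕ)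
    · -- the query is answered positively
      have hqA : q A := by
        by_contra hcon
        have h3 : ((l A : Fin _) : ℕ) = l0 A := by simp only [l, if_neg hcon]
        rw [hA2] at h3
        have := (l0 A).2
        omega
      have hqB : q B := hq A B (hAX.trans hXB) hqA
      have hqX : q X := hq A X hAX hqA
      have hf1A : f1 A := by tauto
      have hf1B : f1 B := by tauto
      have hlA : 2 ^ r + (l1 A : ℕ) = (t : ℕ) := by
        have h3 : ((l A : Fin _) : ℕ) = 2 ^ r + l1 A := by simp only [l, if_pos hqA]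
        rw [hA2] at h3
        omega
      have hlB : 2 ^ r + (l1 B : ℕ) = (t : ℕ) := by
        have h3 : ((l B : Fin _) : ℕ) = 2 ^ r + l1 B := by simp only [l, if_pos hqB]
        rw [hB2] at h3
        omega
      have h4 := hl1 (l1 A) A (by simp [hf1A]) B (by
        rw [mem_filter]
        exact ⟨by simp [hf1B], Fin.ext (by omega)⟩) X hAX hXB
      rw [mem_filter, mem_filter] at h4
      refine ⟨Or.inl ⟨hqX, h4.1.2⟩, ?_⟩
      apply Fin.ext
      have h5 : ((l X : Fin _) : ℕ) = 2 ^ r + l1 X := by simp only [l, if_pos hqX]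
      rw [h5, h4.2]
      exact hlA
    · -- the query is answered negatively
      have hneg : ∀ Y, l Y = t → ¬ q Y := by
        intro Y hY hcon
        have h3 : ((l Y : Fin _) : ℕ) = 2 ^ r + l1 Y := by simp only [l, if_pos hcon]
        rw [hY] at h3
        omega
      have hqA := hneg A hA2
      have hqB := hneg B hB2
      have hqX : ¬ q X := fun hcon => hqB (hq X B hXB hcon)
      have hf0A : f0 A := by tauto
      have hf0B : f0 B := by tauto
      have hlA : (l0 A : ℕ) = (t : ℕ) := by
        have h3 : ((l A : Fin _) : ℕ) = l0 A := by simp only [l, if_neg hqA]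
        rw [hA2] at h3
        omega
      have hlB : (l0 B : ℕ) = (t : ℕ) := by
        have h3 : ((l B : Fin _) : ℕ) = l0 B := by simp only [l, if_neg hqB]
        rw [hB2] at h3
        omega
      have h4 := hl0 (l0 A) A (by simp [hf0A]) B (by
        rw [mem_filter]
        exact ⟨by simp [hf0B], Fin.ext (by omega)⟩) X hAX hXB
      rw [mem_filter, mem_filter] at h4
      refine ⟨Or.inr ⟨hqX, h4.1.2⟩, ?_⟩
      apply Fin.ext
      have h5 : ((l X : Fin _) : ℕ) = l0 X := by simp only [l, if_neg hqX]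
      rw [h5, h4.2]
      exact hlA

end Pool.Agent.Q93.FA
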