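import Pool.Agent.Q93.FA.Pieces

/-!
Diagonal sections of families of subsets of `[N]^d`.
-/

set_option autoImplicit false

namespace Pool.Agent.Q93.FA

open Finset

/-- the diagonal cell `(i, …, i)` -/
def dg (d : ℕ) {N : ℕ} (i : Fin N) : Fin d → Fin N := fun _ => i

/-- the diagonal of `[N]^d` -/
def diagonal (d N : ℕ) : Finset (Fin d → Fin N) := univ.image (dg d)

/-- The section of the family `S` over the off-diagonal part `A₀`: all `B ⊆ [N]` such that
`A₀ ∪ {(i, …, i) : i ∈ B}` belongs to `S`. -/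
def section' {d N : ℕ} (S : Finset (Finset (Fin d → Fin N))) (A₀ : Finset (Fin d → Fin N)) :
    Finset (Finset (Fin N)) :=
  univ.filter fun B => A₀ ∪ B.image (dg d) ∈ S

lemma dg_inj {d : ℕ} (hd : 1 ≤ d) {N : ℕ} : Function.Injective (dg d : Fin N → Fin d → Fin N) :=
  fun _ _ h => congrFun h ⟨0, hd⟩

lemma card_diagonal {d : ℕ} (hd : 1 ≤ d) (N : ℕ) : #(diagonal d N) = N := by
  rw [diagonal, card_image_of_injective _ (dg_inj hd), card_univ, Fintype.card_fin]

lemma card_powerset_compl {d : ℕ} (hd : 1 ≤ d) (N : ℕ) :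
    #((diagonal d N)ᶜ.powerset) = 2 ^ (N ^ d - N) := by
  rw [card_powerset, card_compl, card_diagonal hd]
  simp

lemma card_eq_sum_sections {d : ℕ} (hd : 1 ≤ d) {N : ℕ} (S : Finset (Finset (Fin d → Fin N))) :
    #S = ∑ A₀ ∈ (diagonal d N)ᶜ.powerset, #(section' S A₀) := by
  classical
  rw [card_eq_sum_card_fiberwise (f := fun A => A \ diagonal d N)
    (t := (diagonal d N)ᶜ.powerset) (fun A _ => by
      rw [mem_coe, mem_powerset]
      intro x hx
      rw [mem_compl]
      exact (mem_sdiff.1 hx).2)]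
  refine sum_congr rfl fun A₀ hA₀ => ?_
  rw [mem_powerset] at hA₀
  have hnot : ∀ i : Fin N, dg d i ∉ A₀ := fun i hi =>
    (mem_compl.1 (hA₀ hi)) (mem_image.2 ⟨i, mem_univ _, rfl⟩)
  refine card_nbij' (fun A => univ.filter fun i => dg d i ∈ A) (fun B => A₀ ∪ B.image (dg d))
    ?_ ?_ ?_ ?_
  · intro A hA
    rw [mem_coe, mem_filter] at hA
    rw [mem_coe, section', mem_filter]
    refine ⟨mem_univ _, ?_⟩
    have e : A₀ ∪ (univ.filter fun i => dg d i ∈ A).image (dg d) = A := by
      ext x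
      rw [mem_union, mem_image]
      constructor
      · rintro (h | ⟨i, hi, rfl⟩)
        · rw [← hA.2] at h
          exact (mem_sdiff.1 h).1
        · exact (mem_filter.1 hi).2
      · intro hx
        by_cases h : x ∈ diagonal d N
        · obtain ⟨i, -, rfl⟩ := mem_image.1 h
          exact Or.inr ⟨i, by simp [hx], rfl⟩
        · left
          rw [← hA.2]
          exact mem_sdiff.2 ⟨hx, h⟩
    rw [e]
    exact hA.1
  · intro B hB
    rw [mem_coe, section', mem_filter] at hB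
    rw [mem_coe, mem_filter]
    refine ⟨hB.2, ?_⟩
    ext x
    simp only [mem_sdiff, mem_union, mem_image]
    constructor
    · rintro ⟨h | ⟨i, -, rfl⟩, h2⟩
      · exact h
      · exact absurd (mem_image.2 ⟨i, mem_univ _, rfl⟩) h2
    · intro h
      exact ⟨Or.inl h, mem_compl.1 (hA₀ h)⟩
  · intro A hA
    rw [mem_coe, mem_filter] at hA
    ext x
    simp only [mem_union, mem_image, mem_filter, mem_univ, true_and]
    constructor
    · rintro (h | ⟨i, hi, rfl⟩)
      · rw [← hA.2] at h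
        exact (mem_sdiff.1 h).1
      · exact hi
    · intro hx
      by_cases h : x ∈ diagonal d N
      · obtain ⟨i, -, rfl⟩ := mem_image.1 h
        exact Or.inr ⟨i, hx, rfl⟩
      · left
        rw [← hA.2]
        exact mem_sdiff.2 ⟨hx, h⟩
  · intro B _
    ext i
    simp only [mem_union, mem_image, mem_filter, mem_univ, true_and]
    constructor
    · rintro (h | ⟨j, hj, hji⟩)
      · exact absurd h (hnot i)
      · rwa [← dg_inj hd hji]
    · intro hi
      exact Or.inr ⟨i, hi, rfl⟩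

/-- a family which contains no pair `A`, `A ∪ {(i, …, i)}` has edge-free sections -/
lemma edgeFree_section {d : ℕ} (hd : 1 ≤ d) {N : ℕ} (S : Finset (Finset (Fin d → Fin N)))
    (hS : ∀ A ∈ S, ∀ i, dg d i ∉ A → A ∪ {dg d i} ∉ S) (A₀ : Finset (Fin d → Fin N))
    (hA₀ : A₀ ⊆ (diagonal d N)ᶜ) : EdgeFree (section' S A₀) := by
  intro B hB c hc h
  rw [section', mem_filter] at hB h
  have hnot : dg d c ∉ A₀ := fun hi =>
    (mem_compl.1 (hA₀ hi)) (mem_image.2 ⟨c, mem_univ _, rfl⟩)
  refine hS _ hB.2 c ?_ ?_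
  · rw [mem_union, mem_image]
    rintro (h1 | ⟨j, hj, hji⟩)
    · exact hnot h1
    · exact hc (dg_inj hd hji ▸ hj)
  · have e : A₀ ∪ B.image (dg d) ∪ {dg d c} = A₀ ∪ (insert c B).image (dg d) := by
      rw [image_insert, union_assoc]
      congr 1
      rw [union_comm, insert_eq]
    rw [e]
    exact h.2

/-- **The bound for subfamilies of families with piecewise convex sections.** -/
theorem core {d : ℕ} (hd : 1 ≤ d) {N T : ℕ} (F S : Finset (Finset (Fin d → Fin N))) (hSF : S ⊆ F)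
    (hF : ∀ A₀, A₀ ⊆ (diagonal d N)ᶜ → Pieces T (section' F A₀))
    (hS : ∀ A ∈ S, ∀ i, dg d i ∉ A → A ∪ {dg d i} ∉ S) :
    2 * #S ≤ #F + T * N.choose (N / 2) * 2 ^ (N ^ d - N) := by
  rw [card_eq_sum_sections hd S, card_eq_sum_sections hd F, mul_sum]
  calc ∑ A₀ ∈ (diagonal d N)ᶜ.powerset, 2 * #(section' S A₀)
      ≤ ∑ A₀ ∈ (diagonal d N)ᶜ.powerset, (#(section' F A₀) + T * N.choose (N / 2)) := by
        refine sum_le_sum fun A₀ hA₀ => ?_
        rw [mem_powerset] at hA₀
        have h := pieces_bound T (section' F A₀) (section' S A₀) (hF A₀ hA₀)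
          (fun B hB => by
            rw [section', mem_filter] at hB ⊢
            exact ⟨mem_univ _, hSF hB.2⟩)
          (edgeFree_section hd S hS A₀ hA₀)
        rwa [Fintype.card_fin] at h
    _ = _ := by
        rw [sum_add_distrib, sum_const, card_powerset_compl hd, smul_eq_mul]
        ring

/-- `(N choose N/2)² N ≤ 4^N` -/
lemma central (k : ℕ) : (2 * k).choose k ^ 2 * (2 * k + 1) ≤ 16 ^ k := by
  induction k with
  | zero => simp
  | succ k ih =>
    have h1 := Nat.succ_mul_centralBinom_succ k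
    rw [Nat.centralBinom_eq_two_mul_choose, Nat.centralBinom_eq_two_mul_choose] at h1
    -- `(k+1) c' = 2 (2k+1) c`
    set c := (2 * k).choose k with hc
    set c' := (2 * (k + 1)).choose (k + 1) with hc'
    have h2 : (k + 1) ^ 2 * (c' ^ 2 * (2 * (k + 1) + 1)) ≤ (k + 1) ^ 2 * 16 ^ (k + 1) := by
      calc (k + 1) ^ 2 * (c' ^ 2 * (2 * (k + 1) + 1)) = ((k + 1) * c') ^ 2 * (2 * k + 3) := by ring
        _ = (2 * (2 * k + 1) * c) ^ 2 * (2 * k + 3) := by rw [h1]
        _ = 4 * ((2 * k + 1) * (2 * k + 3)) * (c ^ 2 * (2 * k + 1)) := by ring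
        _ ≤ 4 * (4 * (k + 1) ^ 2) * (c ^ 2 * (2 * k + 1)) := by
            refine Nat.mul_le_mul_right _ (Nat.mul_le_mul_left _ ?_)
            nlinarith
        _ ≤ 4 * (4 * (k + 1) ^ 2) * 16 ^ k := Nat.mul_le_mul_left _ ih
        _ = (k + 1) ^ 2 * 16 ^ (k + 1) := by ring
    exact Nat.le_of_mul_le_mul_left h2 (by positivity)

lemma choose_sq (N : ℕ) : N.choose (N / 2) ^ 2 * N ≤ 4 ^ N := by
  obtain ⟨k, rfl | rfl⟩ := Nat.even_or_odd' N
  · have h := central k
    rw [Nat.mul_div_cancel_left k (by norm_num)]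
    calc (2 * k).choose k ^ 2 * (2 * k) ≤ (2 * k).choose k ^ 2 * (2 * k + 1) :=
          Nat.mul_le_mul_left _ (by omega)
      _ ≤ 16 ^ k := h
      _ = 4 ^ (2 * k) := by rw [pow_mul]; norm_num
  · have h := central (k + 1)
    have e : (2 * k + 1) / 2 = k := by omega
    rw [e]
    have h1 : (2 * (k + 1)).choose (k + 1) = 2 * (2 * k + 1).choose k := by
      have h2 : (2 * k + 1 + 1).choose (k + 1) = (2 * k + 1).choose k + (2 * k + 1).choose (k + 1) :=
        Nat.choose_succ_succ _ _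
      have h3 : (2 * k + 1).choose (k + 1) = (2 * k + 1).choose k := by
        apply Nat.choose_symm_of_eq_add
        omega
      rw [show 2 * (k + 1) = 2 * k + 1 + 1 from by ring, h2, h3]
      ring
    rw [h1] at h
    have h4 : 4 * ((2 * k + 1).choose k ^ 2 * (2 * k + 1)) ≤ 4 * 4 ^ (2 * k + 1) := by
      calc 4 * ((2 * k + 1).choose k ^ 2 * (2 * k + 1))
          ≤ (2 * (2 * k + 1).choose k) ^ 2 * (2 * (k + 1) + 1) := by
            rw [mul_pow, ← mul_assoc]
            norm_num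
            exact Nat.mul_le_mul_left _ (by omega)
        _ ≤ 16 ^ (k + 1) := h
        _ = 4 * 4 ^ (2 * k + 1) := by
            rw [show (16 : ℕ) = 4 ^ 2 from by norm_num, ← pow_mul]
            ring
    exact Nat.le_of_mul_le_mul_left h4 (by norm_num)

lemma choose_real (N : ℕ) (hN : 1 ≤ N) : (N.choose (N / 2) : ℝ) ≤ 2 ^ N / √N := by
  have hN' : (0 : ℝ) < N := by exact_mod_cast hN
  rw [le_div_iff₀ (Real.sqrt_pos.2 hN')]
  have h := choose_sq N
  have h1 : ((N.choose (N / 2) : ℝ) * √N) ^ 2 ≤ (2 ^ N) ^ 2 := by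
    rw [mul_pow, Real.sq_sqrt hN'.le]
    have h2 : ((N.choose (N / 2) : ℝ)) ^ 2 * N ≤ 4 ^ N := by exact_mod_cast h
    calc ((N.choose (N / 2) : ℝ)) ^ 2 * N ≤ 4 ^ N := h2
      _ = (2 ^ N) ^ 2 := by rw [← pow_mul, mul_comm, pow_mul]; norm_num
  exact (pow_le_pow_iff_left₀ (by positivity) (by positivity) two_ne_zero).1 h1

end Pool.Agent.Q93.FA
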